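import Pool.Agent.helper80.RSV.Base

/-!
# Residually small varieties of groups: varieties generated by finite or virtually soluble groups
-/

namespace Pool.Agent.helper80.RSV

/-- a variety generated by its finite groups -/
def GenFin (W : Set (FreeGroup ℕ)) : Prop :=
  ∀ w : FreeGroup ℕ, (∀ (G : Type) [Group G], Finite G → Sat W G → Law w G) →
    ∀ (G : Type) [Group G], Sat W G → Law w G

/-- a variety generated by its virtually soluble groups -/
def GenVS (W : Set (FreeGroup ℕ)) : Prop :=
  ∀ w : FreeGroup ℕ, (∀ (G : Type) [Group G], VirtSol G → Sat W G → Law w G) →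
    ∀ (G : Type) [Group G], Sat W G → Law w G

end Pool.Agent.helper80.RSV
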