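import Pool.Agent.helper80.RSV.Base

/-!
# F1, F2: the finite groups of bounded order in a variety; abelian Sylow subgroups
-/

namespace Pool.Agent.helper80.RSV

open Function
open scoped commutatorElement

/-- a type with `k` elements and no structure -/
structure F12T (k : ℕ) : Type where
  val : Fin k

/-- the obvious equivalence -/
def f12e (k : ℕ) : F12T k ≃ Fin k := ⟨F12T.val, F12T.mk, fun _ => rfl, fun _ => rfl⟩

instance f12_finite (k : ℕ) : Finite (F12T k) := Finite.of_equiv _ (f12e k).symm

instance f12_finite_group (k : ℕ) : Finite (Group (F12T k)) := by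
  let φ : Group (F12T k) → (F12T k → F12T k → F12T k) := fun g => g.mul
  refine Finite.of_injective φ ?_
  intro g₁ g₂ h
  exact Group.ext h

/-- index type: group structures of order at most `β` in the variety -/
def F12I (W : Set (FreeGroup ℕ)) (β : ℕ) : Type :=
  Σ k : Fin (β + 1), {s : Group (F12T k) // @Sat W (F12T k) s}

instance f12_finite_I (W : Set (FreeGroup ℕ)) (β : ℕ) : Finite (F12I W β) := by
  unfold F12I; infer_instance

instance f12_group (W : Set (FreeGroup ℕ)) (β : ℕ) (i : F12I W β) : Group (F12T i.1) := i.2.1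

theorem exists_finite_group (W : Set (FreeGroup ℕ)) (β : ℕ) : ∃ (F : Type) (_ : Group F),
    Finite F ∧ Sat W F ∧
      ∀ (G : Type) [Group G], Finite G → Nat.card G ≤ β → Sat W G → InVar F G := by
  refine ⟨∀ i : F12I W β, F12T i.1, inferInstance, inferInstance,
    Sat.pi (fun i => i.2.2), ?_⟩
  intro G _ hfin hcard hG w hw
  let e : G ≃ F12T (Nat.card G) := (Finite.equivFin G).trans (f12e _).symm
  let s : Group (F12T (Nat.card G)) := e.symm.group
  let φ : F12T (Nat.card G) ≃* G := e.symm.mulEquiv
  have hs : Sat W (F12T (Nat.card G)) := hG.of_injective φ.toMonoidHom φ.injective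
  let i : F12I W β := ⟨⟨Nat.card G, by omega⟩, ⟨s, hs⟩⟩
  have h1 : Law w (F12T i.1) := hw.of_surjective (Pi.evalMonoidHom (fun i : F12I W β => F12T i.1) i)
    (Function.surjective_eval i)
  exact h1.of_surjective φ.toMonoidHom φ.surjective

theorem abSylow_of_zp {G : Type} [Group G] [Finite G] (hZ : ZP G) : AbSylow G := by
  intro p hp P x hx y hy
  have hpf : Fact p.Prime := ⟨hp⟩
  have hnil : Group.IsNilpotent (P : Subgroup G) := P.isPGroup'.isNilpotent
  obtain ⟨n, hn⟩ := (Subgroup.isNilpotent_iff_lowerCentralSeries (P : Subgroup G)).1 hnil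
  set Q : Subgroup G := (P : Subgroup G) with hQ
  have key : ∀ n, Q.lowerCentralSeries (n + 1) = ⊥ → Q.lowerCentralSeries 1 = ⊥ := by
    intro n
    induction n with
    | zero => exact fun h => h
    | succ n ih =>
      intro h
      apply ih
      rw [eq_bot_iff]
      intro z hz
      rw [Subgroup.mem_bot]
      refine hZ Q z ?_ (fun k hk => ?_)
      · have := Q.lowerCentralSeries_antitone (show 1 ≤ n + 1 by omega) hz
        exact this
      · have h1 : ⁅z, k⁆ ∈ Q.lowerCentralSeries (n + 1 + 1) :=
          Subgroup.commutator_mem_commutator hz hk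
        rw [h, Subgroup.mem_bot, commutatorElement_eq_one_iff_mul_comm] at h1
        exact h1.symm
  have h1 : Q.lowerCentralSeries 1 = ⊥ := by
    apply key n
    rw [eq_bot_iff, ← hn]
    exact Q.lowerCentralSeries_antitone (Nat.le_succ n)
  have h2 : ⁅x, y⁆ ∈ Q.lowerCentralSeries 1 := Subgroup.commutator_mem_commutator hx hy
  rw [h1, Subgroup.mem_bot, commutatorElement_eq_one_iff_mul_comm] at h2
  exact h2

end Pool.Agent.helper80.RSV
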