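import Pool.Agent.helper80.RSV.Base
import Pool.Agent.helper3.RSV.GenDefs
import Pool.Agent.helper3.RSV.RsvF12
import Pool.Agent.helper96.RsvC

/-!
# F3: reduction to finite subdirectly irreducible groups
-/

namespace Pool.Agent.helper80.RSV

open Function

theorem f3_virtSol_subgroup {G : Type} [Group G] (h : VirtSol G) (H : Subgroup G) :
    VirtSol H := by
  obtain ⟨N, hN, hfi, hs⟩ := h
  refine ⟨N.subgroupOf H, inferInstance, inferInstance, ?_⟩
  let φ : N.subgroupOf H →* N := MonoidHom.mk' (fun x => ⟨((x : H) : G), x.2⟩) (by intro a b; rfl)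
  refine Group.isSolvable_of_isSolvable_injective (f := φ) ?_
  intro a b hab
  have := congrArg Subtype.val hab
  exact Subtype.ext (Subtype.ext this)

theorem genFin_of_genVS {W : Set (FreeGroup ℕ)} (hZ : ∀ (G : Type) [Group G], Sat W G → ZP G)
    {E : ℕ} (hE0 : 0 < E) (hE : ∀ (G : Type) [Group G], Sat W G → ExpP E G) (hV : GenVS W) :
    GenFin W := by
  intro w hw
  apply hV w
  intro G _ hS hG f
  by_contra hne
  obtain ⟨k, hk⟩ := exists_bound w
  set H : Subgroup G := Subgroup.closure (f '' {n | n < k}) with hH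
  have hmem : ∀ n, n < k → f n ∈ H := fun n hn => Subgroup.subset_closure ⟨n, hn, rfl⟩
  set f' : ℕ → H := fun n => if h : n < k then ⟨f n, hmem n h⟩ else 1 with hf'
  have hfg : Group.FG H := by
    rw [Group.fg_iff_subgroup_fg, Subgroup.fg_iff]
    exact ⟨_, hH.symm, (Set.finite_lt_nat k).image _⟩
  have hHs : Sat W H := hG.subgroup H
  have hx : FreeGroup.lift f' w ≠ 1 := by
    intro h1
    apply hne
    have h2 := map_lift H.subtype f' w
    rw [h1, map_one] at h2
    rw [h2]
    apply hk G
    intro n hn
    simp [hf', hn]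
  obtain ⟨N, hN, hNf, hxN⟩ := rf_virtSol hfg (hZ H hHs) hE0 (fun K => hE K (hHs.subgroup K))
    (f3_virtSol_subgroup hS H) hx
  apply hxN
  have hfin : Finite (H ⧸ N) := inferInstance
  have h3 := hw (H ⧸ N) hfin (hHs.quotient N) (fun n => ((f' n : H) : H ⧸ N))
  have h4 := map_lift (QuotientGroup.mk' N) f' w
  rw [← QuotientGroup.eq_one_iff]
  have h5 : ((FreeGroup.lift f' w : H) : H ⧸ N) = QuotientGroup.mk' N (FreeGroup.lift f' w) := rfl
  rw [h5, h4]
  exact h3

/-- exponent sum of the letter `n` in the word `w` -/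
def f3_expo (n : ℕ) (w : FreeGroup ℕ) : ℤ :=
  Multiplicative.toAdd (FreeGroup.lift (fun m => if m = n then Multiplicative.ofAdd (1 : ℤ) else 1) w)

theorem f3_comm {A : Type} [CommGroup A] (w : FreeGroup ℕ)
    (h : ∀ n, ∀ a : A, a ^ (f3_expo n w) = 1) : Law w A := by
  intro f
  let φ : FreeGroup ℕ →* Multiplicative (ℕ →₀ ℤ) :=
    FreeGroup.lift (fun n => Multiplicative.ofAdd (Finsupp.single n 1))
  let ψ : (ℕ →₀ ℤ) →+ Additive A := Finsupp.liftAddHom
    (fun n => (zmultiplesHom (Additive A)) (Additive.ofMul (f n)))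
  have h1 : ∀ w, FreeGroup.lift f w = (Additive.toMul (ψ (Multiplicative.toAdd (φ w)))) := by
    intro w
    let θ : FreeGroup ℕ →* A := (AddMonoidHom.toMultiplicativeLeft ψ).comp φ
    have : FreeGroup.lift f = θ := by
      ext n
      simp [θ, φ, ψ]
    rw [this]
    rfl
  have h2 : ∀ n, (Multiplicative.toAdd (φ w)) n = f3_expo n w := by
    intro n
    let η : FreeGroup ℕ →* Multiplicative ℤ :=
      (AddMonoidHom.toMultiplicative (Finsupp.applyAddHom n : (ℕ →₀ ℤ) →+ ℤ)).comp φ
    have : FreeGroup.lift (fun m => if m = n then Multiplicative.ofAdd (1 : ℤ) else 1) = η := by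
      ext m
      by_cases hm : m = n
      · subst hm
        simp [η, φ]
      · simp [η, φ, hm]
    unfold f3_expo
    rw [this]
    rfl
  rw [h1]
  have h3 : ψ (Multiplicative.toAdd (φ w)) = 0 := by
    simp only [ψ, Finsupp.liftAddHom_apply, Finsupp.sum]
    refine Finset.sum_eq_zero (fun n _ => ?_)
    rw [h2 n]
    have := h n (f n)
    rw [zmultiplesHom_apply, ← ofMul_zpow, this, ofMul_one]
  rw [h3]
  rfl

theorem f3_comm' {A : Type} [Group A] (hc : ∀ x y : A, x * y = y * x) (w : FreeGroup ℕ)
    (h : ∀ n, ∀ a : A, a ^ (f3_expo n w) = 1) : Law w A := by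
  let _ : CommGroup A := { ‹Group A› with mul_comm := hc }
  exact f3_comm w h

/-- reduction to finite subdirectly irreducible groups -/
theorem f3_law {W : Set (FreeGroup ℕ)} (hV : GenFin W) {w : FreeGroup ℕ}
    (h : ∀ (G : Type) [Group G], Finite G → Sat W G → SubdirIrr G → Law w G)
    (G : Type) [Group G] (hG : Sat W G) : Law w G := by
  refine hV w ?_ G hG
  intro G _ hfin hG f
  by_contra hne
  obtain ⟨N, hN, -, haN, hmax⟩ := exists_max_avoid (N₀ := (⊥ : Subgroup G)) inferInstance
    (a := FreeGroup.lift f w) (by rwa [Subgroup.mem_bot])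
  apply haN
  have h1 := h (G ⧸ N) inferInstance (hG.quotient N) (subdirIrr_quotient haN hmax)
    (fun n => ((f n : G) : G ⧸ N))
  have h4 := map_lift (QuotientGroup.mk' N) f w
  rw [← QuotientGroup.eq_one_iff]
  have h5 : ((FreeGroup.lift f w : G) : G ⧸ N) = QuotientGroup.mk' N (FreeGroup.lift f w) := rfl
  rw [h5, h4]
  exact h1

/-- a word applied to powers of an element -/
theorem f3_pow {G : Type} [Group G] (g : G) (f : ℕ → Multiplicative ℤ) (w : FreeGroup ℕ) :
    FreeGroup.lift (fun n => g ^ (Multiplicative.toAdd (f n))) w =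
      g ^ (Multiplicative.toAdd (FreeGroup.lift f w)) := by
  have := map_lift (zpowersHom G g) f w
  simp only [zpowersHom_apply] at this
  exact this.symm

theorem classify_genFin {W : Set (FreeGroup ℕ)} (hV : GenFin W)
    (hZ : ∀ (G : Type) [Group G], Sat W G → ZP G) {β : ℕ}
    (hβ : ∀ (G : Type) [Group G], Finite G → Sat W G → SubdirIrr G →
      (∀ x y : G, x * y = y * x) ∨ Nat.card G ≤ β) :
    ∃ (F : Type) (_ : Group F), Finite F ∧ AbSylow F ∧
      ((∀ (G : Type) [Group G], Sat W G ↔ InVar F G) ∨
        (∀ (G : Type) [Group G], Sat W G ↔ InVar (F × Multiplicative ℤ) G)) := by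
  obtain ⟨F0, hF0g, hF0f, hF0s, hF0⟩ := exists_finite_group W β
  by_cases hW : ∀ w ∈ W, Law w (Multiplicative ℤ)
  · refine ⟨F0, hF0g, hF0f, abSylow_of_zp (hZ F0 hF0s), Or.inr ?_⟩
    intro G _
    constructor
    · intro hG w hw
      refine f3_law hV ?_ G hG
      intro G' _ hfin hG' hSI
      rcases hβ G' hfin hG' hSI with hc | hcard
      · refine f3_comm' hc w (fun n a => ?_)
        have h1 := hw.snd (fun m => if m = n then Multiplicative.ofAdd (1 : ℤ) else 1)
        unfold f3_expo
        rw [h1]
        simp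
      · exact hF0 G' hfin hcard hG' w hw.fst
    · intro hG w hw
      exact hG w ((hF0s w hw).prod (hW w hw))
  · push Not at hW
    obtain ⟨w0, hw0, hnl⟩ := hW
    have hpow : ∀ w ∈ W, ∀ f : ℕ → Multiplicative ℤ, ∀ (G : Type) [Group G], Sat W G → ∀ g : G,
        g ^ (Multiplicative.toAdd (FreeGroup.lift f w)) = 1 := by
      intro w hw f G _ hG g
      rw [← f3_pow]
      exact hG w hw _
    have hex : ∃ e : ℕ, 0 < e ∧ ∀ (G : Type) [Group G], Sat W G → ∀ g : G, g ^ e = 1 := by
      unfold Law at hnl
      push Not at hnl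
      obtain ⟨f, hf⟩ := hnl
      have hk : Multiplicative.toAdd (FreeGroup.lift f w0) ≠ 0 := by
        intro h
        apply hf
        exact Multiplicative.toAdd.injective h
      refine ⟨(Multiplicative.toAdd (FreeGroup.lift f w0)).natAbs, Int.natAbs_pos.2 hk, ?_⟩
      intro G _ hG g
      have h1 := hpow w0 hw0 f G hG g
      rw [← zpow_natCast]
      rcases Int.natAbs_eq (Multiplicative.toAdd (FreeGroup.lift f w0)) with h2 | h2
      · rw [← h2]; exact h1
      · have h3 : ((Multiplicative.toAdd (FreeGroup.lift f w0)).natAbs : ℤ) =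
            -(Multiplicative.toAdd (FreeGroup.lift f w0)) := by omega
        rw [h3, zpow_neg, h1, inv_one]
    classical
    set e := Nat.find hex with he
    obtain ⟨he0, heG⟩ := Nat.find_spec hex
    have hdvd : ∀ m : ℤ, (∀ (G : Type) [Group G], Sat W G → ∀ g : G, g ^ m = 1) → (e : ℤ) ∣ m := by
      intro m hm
      have h1 : ∀ (G : Type) [Group G], Sat W G → ∀ g : G, g ^ (Int.gcd m e) = 1 := by
        intro G _ hG g
        have h2 := hm G hG g
        have h3 := heG G hG g
        have h4 : orderOf g ∣ m.natAbs := by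
          rw [orderOf_dvd_iff_pow_eq_one]
          rcases Int.natAbs_eq m with h5 | h5
          · rw [← zpow_natCast, ← h5]; exact h2
          · rw [← zpow_natCast, show ((m.natAbs : ℕ) : ℤ) = -m by omega, zpow_neg, h2, inv_one]
        have h5 : orderOf g ∣ e := orderOf_dvd_of_pow_eq_one h3
        rw [← orderOf_dvd_iff_pow_eq_one]
        exact Nat.dvd_gcd h4 (by simpa using h5)
      have hpos : 0 < Int.gcd m e := Int.gcd_pos_of_ne_zero_right m (by exact_mod_cast he0.ne')
      have h2 : e ≤ Int.gcd m e := Nat.find_min' hex ⟨hpos, h1⟩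
      have h3 : Int.gcd m e ∣ e := by
        have := Int.gcd_dvd_right m (e : ℤ)
        exact_mod_cast this
      have h4 : Int.gcd m e = e := le_antisymm (Nat.le_of_dvd he0 h3) h2
      rw [← h4]
      exact Int.gcd_dvd_left _ _
    have hne : NeZero e := ⟨he0.ne'⟩
    have hZe : Sat W (Multiplicative (ZMod e)) := by
      intro w hw f
      choose f' hf' using fun n => ZMod.intCast_surjective (Multiplicative.toAdd (f n))
      let ψ : Multiplicative ℤ →* Multiplicative (ZMod e) :=
        AddMonoidHom.toMultiplicative (Int.castAddHom (ZMod e))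
      have h1 := map_lift ψ (fun n => Multiplicative.ofAdd (f' n)) w
      have h2 : (fun n => ψ (Multiplicative.ofAdd (f' n))) = f := by
        funext n
        apply Multiplicative.toAdd.injective
        exact hf' n
      rw [h2] at h1
      rw [← h1]
      have h3 := hdvd (Multiplicative.toAdd (FreeGroup.lift (fun n => Multiplicative.ofAdd (f' n)) w))
        (fun G _ hG g => hpow w hw _ G hG g)
      apply Multiplicative.toAdd.injective
      have h4 : Multiplicative.toAdd (ψ (FreeGroup.lift (fun n => Multiplicative.ofAdd (f' n)) w)) =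
        ((Multiplicative.toAdd (FreeGroup.lift (fun n => Multiplicative.ofAdd (f' n)) w) : ℤ) :
          ZMod e) := rfl
      rw [h4, (ZMod.intCast_zmod_eq_zero_iff_dvd _ _).2 h3]
      rfl
    have hFs : Sat W (F0 × Multiplicative (ZMod e)) := hF0s.prod hZe
    have hFf : Finite (Multiplicative (ZMod e)) := inferInstanceAs (Finite (ZMod e))
    refine ⟨F0 × Multiplicative (ZMod e), inferInstance, inferInstance,
      abSylow_of_zp (hZ _ hFs), Or.inl ?_⟩
    intro G _
    constructor
    · intro hG w hw
      refine f3_law hV ?_ G hG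
      intro G' _ hfin hG' hSI
      rcases hβ G' hfin hG' hSI with hc | hcard
      · refine f3_comm' hc w (fun n a => ?_)
        have h1 := hw.snd (fun m => if m = n then Multiplicative.ofAdd (1 : ZMod e) else 1)
        let ψ : Multiplicative ℤ →* Multiplicative (ZMod e) :=
          AddMonoidHom.toMultiplicative (Int.castAddHom (ZMod e))
        have h2 := map_lift ψ (fun m => if m = n then Multiplicative.ofAdd (1 : ℤ) else 1) w
        have h3 : (fun m => ψ (if m = n then Multiplicative.ofAdd (1 : ℤ) else 1)) =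
            (fun m => if m = n then Multiplicative.ofAdd (1 : ZMod e) else 1) := by
          funext m
          by_cases hm : m = n
          · simp only [hm, if_true]
            apply Multiplicative.toAdd.injective
            exact Int.cast_one
          · simp only [hm, if_false, map_one]
        rw [h3, h1] at h2
        have h4 : ((f3_expo n w : ℤ) : ZMod e) = 0 := congrArg Multiplicative.toAdd h2
        obtain ⟨c, hc'⟩ := (ZMod.intCast_zmod_eq_zero_iff_dvd _ _).1 h4
        rw [hc', zpow_mul, zpow_natCast, heG G' hG' a, one_zpow]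
      · exact hF0 G' hfin hcard hG' w hw.fst
    · intro hG w hw
      exact hG w (hFs w hw)

end Pool.Agent.helper80.RSV
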